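import Pool.Agent.Lib.MP_982bd8_co.Seq

/-! Sidon sets in `Z/pZ` coming from a projective linear action on a plane over any field. -/

namespace Pool.Agent.Results.MP_982bd8_co.LinearType

open Polynomial Matrix Pool.Agent.LinSidon

/-- The residues `i` modulo `p` such that the point `g ^ i v` lies on the line `w`. -/
def hits (p : ℕ) {K : Type*} [Field K] (g : Matrix (Fin 3) (Fin 3) K) (v w : Fin 3 → K) :
    Set (ZMod p) := {i | w ⬝ᵥ (g ^ i.val *ᵥ v) = 0}

theorem closed {K : Type*} [Field K] [IsAlgClosed K] {p : ℕ} (hp : p.Prime) (hp' : 4096 < p)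
    {g : Matrix (Fin 3) (Fin 3) K} {c : K} {v w : Fin 3 → K} (hc : c ≠ 0) (hg : g ^ p = c • 1)
    (h : hits p g v w ≠ Set.univ) {ρ : ℝ} (h0 : 1 ≤ ρ) (hρ : ρ ^ 3 = p) :
    ((hits p g v w).ncard : ℝ) ≤ √(p / 2) + 16 * ρ ∨ ∃ q, Fr K q ∧ p = q ^ 2 + q + 1 := by
  classical
  have := Fact.mk hp
  let L : K[X] →ₗ[K] K :=
    { toFun := fun f => w ⬝ᵥ (aeval g f *ᵥ v)
      map_add' := fun f f' => by rw [map_add, add_mulVec, dotProduct_add]
      map_smul' := fun a f => by rw [map_smul, smul_mulVec, dotProduct_smul, RingHom.id_apply] }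
  have hL : ∀ i : ℕ, L (X ^ i) = w ⬝ᵥ (g ^ i *ᵥ v) := fun i => by simp [L]
  have := fun_bound hp hp' hc L (μ := minpoly K g)
    (minpoly.dvd K g (by simp [hg, Algebra.algebraMap_eq_smul_one]))
    ((natDegree_le_of_dvd (minpoly_dvd_charpoly g) g.charpoly_monic.ne_zero).trans
      (by rw [charpoly_natDegree_eq_dim, Fintype.card_fin]))
    (by rintro _ ⟨f, rfl⟩; simp [L])
    (by
      obtain ⟨i, hi⟩ := (Set.ne_univ_iff_exists_notMem _).1 h
      exact ⟨i.val, by rwa [hL]⟩)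
    (S := (Finset.range p).filter fun i => L (X ^ i) = 0)
    (fun i hi => Finset.mem_range.1 (Finset.mem_filter.1 hi).1)
    (fun i hi => (Finset.mem_filter.1 hi).2) h0 hρ
  refine this.imp (le_trans ?_) id
  rw [Nat.cast_le, ← Set.ncard_coe_finset]
  exact Set.ncard_le_ncard_of_injOn ZMod.val (fun i hi => by
    simpa [hL, i.val_lt, hits] using hi) (ZMod.val_injective p).injOn

theorem result : ∃ C : ℝ, ∀ p : ℕ, p.Prime → ∀ (K : Type*) [Field K]
    (g : Matrix (Fin 3) (Fin 3) K) (c : K) (v w : Fin 3 → K), c ≠ 0 → g ^ p = c • 1 →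
    hits p g v w ≠ Set.univ →
    ((hits p g v w).ncard : ℝ) ≤ √(p / 2) + C * (p : ℝ) ^ (1 / 3 : ℝ) ∨
      ∃ j : ℕ, 0 < j ∧ (ringChar K).Prime ∧ p = (ringChar K ^ j) ^ 2 + ringChar K ^ j + 1 := by
  refine ⟨4096, fun p hp K _ g c v w hc hg h => ?_⟩
  have := Fact.mk hp
  have h0 : 1 ≤ (p : ℝ) ^ (1 / 3 : ℝ) :=
    Real.one_le_rpow (by exact_mod_cast hp.one_le) (by norm_num)
  have hρ : ((p : ℝ) ^ (1 / 3 : ℝ)) ^ 3 = p := by
    rw [← Real.rpow_natCast, ← Real.rpow_mul (by positivity)]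
    norm_num
  by_cases hp' : p ≤ 4096
  · left
    have h1 : (hits p g v w).ncard ≤ 4096 := by
      refine (Set.ncard_le_card _).trans ?_
      rwa [Nat.card_zmod]
    have h2 : ((hits p g v w).ncard : ℝ) ≤ 4096 := by exact_mod_cast h1
    linarith [Real.sqrt_nonneg ((p : ℝ) / 2)]
  let φ := algebraMap K (AlgebraicClosure K)
  have e : hits p (φ.mapMatrix g) (φ ∘ v) (φ ∘ w) = hits p g v w := by
    ext i
    simp only [hits, Set.mem_ofPred_eq]
    rw [← map_pow, ← map_eq_zero_iff φ φ.injective]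
    simp [dotProduct, mulVec]
  rcases closed hp (not_le.1 hp') (g := φ.mapMatrix g) (c := φ c) (v := φ ∘ v) (w := φ ∘ w)
    ((map_ne_zero φ).2 hc) (by
      rw [← map_pow, hg]
      ext i j
      by_cases hij : i = j <;> simp [one_apply, hij]) (e ▸ h) h0 hρ with h1 | ⟨q, ⟨j, h1, h2, rfl⟩, h3⟩
  · rw [e] at h1
    exact Or.inl (by linarith)
  · rw [← Algebra.ringChar_eq K] at h2 h3
    exact Or.inr ⟨j, h1, h2, h3⟩

end Pool.Agent.Results.MP_982bd8_co.LinearType
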