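import Mathlib

set_option autoImplicit false

namespace Pool.Agent.Results.MP_982bd8_co.NearPerfect

open Finset

/-- `S` is a Sidon set: `a + b = c + d` with all four in `S` forces `{a, b} = {c, d}`. -/
def IsSidon {G : Type} [AddCommGroup G] (S : Finset G) : Prop :=
  ∀ a ∈ S, ∀ b ∈ S, ∀ c ∈ S, ∀ d ∈ S, a + b = c + d → ({a, b} : Set G) = {c, d}

section
variable {G : Type} [AddCommGroup G] [Fintype G] [DecidableEq G] {S : Finset G}

omit [Fintype G] [DecidableEq G] in
theorem IsSidon.or (h : IsSidon S) {a b c d : G} (ha : a ∈ S) (hb : b ∈ S) (hc : c ∈ S)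
    (hd : d ∈ S) (e : a + b = c + d) : (a = c ∧ b = d) ∨ (a = d ∧ b = c) :=
  Set.pair_eq_pair_iff.1 (h a ha b hb c hc d hd e)

omit [Fintype G] [DecidableEq G] in
theorem IsSidon.sub (h : IsSidon S) {a b c d : G} (ha : a ∈ S) (hb : b ∈ S) (hc : c ∈ S)
    (hd : d ∈ S) (e : a - b = c - d) (n : a ≠ b) : a = c ∧ b = d := by
  rcases h.or ha hd hc hb (by linear_combination (norm := abel1) e) with h1 | h1
  · exact ⟨h1.1, h1.2.symm⟩
  · exact absurd h1.1 n

/-- missing differences -/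
def Mis (S : Finset G) : Finset G := univ \ insert 0 (S.offDiag.image fun p => p.1 - p.2)

/-- points of `2 S` on the line `S + u` -/
def U (S : Finset G) (u : G) : Finset G := S.filter fun s => s + s - u ∈ S

theorem not_mis {x : G} (h : x ∉ Mis S) (h0 : x ≠ 0) : ∃ a ∈ S, ∃ b ∈ S, a ≠ b ∧ a - b = x := by
  simp only [Mis, mem_sdiff, mem_univ, true_and, not_not, mem_insert, h0, false_or, mem_image,
    mem_offDiag] at h
  obtain ⟨⟨a, b⟩, ⟨h1, h2, h3⟩, h4⟩ := h
  exact ⟨a, h1, b, h2, h3, h4⟩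

theorem sub_not_mis {a b : G} (ha : a ∈ S) (hb : b ∈ S) : a - b ∉ Mis S := by
  simp only [Mis, mem_sdiff, mem_univ, true_and, not_not, mem_insert, mem_image, mem_offDiag]
  by_cases h : a = b
  · simp [h]
  · exact Or.inr ⟨(a, b), ⟨ha, hb, h⟩, rfl⟩

theorem card_mis (h : IsSidon S) :
    (Mis S).card + (S.card * (S.card - 1) + 1) = Fintype.card G := by
  have h1 : (S.offDiag.image fun p => p.1 - p.2).card = S.card * (S.card - 1) := by
    rw [card_image_of_injOn, offDiag_card, Nat.mul_sub_one]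
    intro p hp q hq e
    obtain ⟨a1, a2, a3⟩ := mem_offDiag.1 (mem_coe.1 hp)
    obtain ⟨b1, b2, -⟩ := mem_offDiag.1 (mem_coe.1 hq)
    exact Prod.ext (h.sub a1 a2 b1 b2 e a3).1 (h.sub a1 a2 b1 b2 e a3).2
  rw [← h1, ← card_insert_of_notMem, Mis, card_sdiff_add_card_eq_card (subset_univ _), card_univ]
  simp only [mem_image, mem_offDiag, not_exists, not_and]
  exact fun p hp e => hp.2.2 (sub_eq_zero.1 e)

theorem parity (h : IsSidon S) {u : G} (hu : u ∉ S) :
    Even (S.card + (U S u).card + (S.filter fun s => u - s ∈ Mis S).card) := by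
  let Q := (S ×ˢ S).filter fun p => p.1 + p.2 - u ∈ S
  have h1 : Q.card = (S.filter fun s => u - s ∉ Mis S).card := by
    refine card_bij (fun p _ => p.1) (fun p hp => ?_) (fun p hp q hq e => ?_) fun s hs => ?_
    · obtain ⟨a1, a2⟩ := mem_filter.1 hp
      obtain ⟨a3, a4⟩ := mem_product.1 a1
      refine mem_filter.2 ⟨a3, ?_⟩
      rw [show u - p.1 = p.2 - (p.1 + p.2 - u) by abel]
      exact sub_not_mis a4 a2
    · obtain ⟨a1, a2⟩ := mem_filter.1 hp
      obtain ⟨a3, a4⟩ := mem_product.1 a1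
      obtain ⟨b1, b2⟩ := mem_filter.1 hq
      obtain ⟨-, b4⟩ := mem_product.1 b1
      refine Prod.ext e (h.sub a4 a2 b4 b2 (by rw [e]; abel) fun e' => hu ?_).1
      rwa [show u = p.1 by linear_combination (norm := abel1) e']
    · obtain ⟨a1, a2⟩ := mem_filter.1 hs
      obtain ⟨a, ha, b, hb, -, e⟩ := not_mis a2 fun e => hu (sub_eq_zero.1 e ▸ a1)
      refine ⟨(s, a), mem_filter.2 ⟨mem_product.2 ⟨a1, ha⟩, ?_⟩, rfl⟩
      rwa [show s + a - u = b by linear_combination (norm := abel1) e]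
  have h2 : (Q.filter fun p => p.1 = p.2).card = (U S u).card := by
    refine card_bij (fun p _ => p.1) (fun p hp => ?_) (fun p hp q hq e => ?_) fun s hs => ?_
    · obtain ⟨a0, a5⟩ := mem_filter.1 hp
      obtain ⟨a1, a2⟩ := mem_filter.1 a0
      exact mem_filter.2 ⟨(mem_product.1 a1).1, by rwa [← a5] at a2⟩
    · exact Prod.ext e (by rw [← (mem_filter.1 hp).2, ← (mem_filter.1 hq).2]; exact e)
    · obtain ⟨a1, a2⟩ := mem_filter.1 hs
      exact ⟨(s, s), mem_filter.2 ⟨mem_filter.2 ⟨mem_product.2 ⟨a1, a1⟩, a2⟩, rfl⟩, rfl⟩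
  have h3 : Even (Q.filter fun p => ¬ p.1 = p.2).card := by
    rw [← ZMod.natCast_eq_zero_iff_even, card_eq_sum_ones]
    push_cast
    refine sum_involution (fun p _ => p.swap) (fun _ _ => by decide) (fun p hp _ e => ?_)
      (fun p hp => ?_) (fun _ _ => Prod.swap_swap _)
    · exact (mem_filter.1 hp).2 (congrArg Prod.snd e)
    · obtain ⟨a0, a5⟩ := mem_filter.1 hp
      obtain ⟨a1, a2⟩ := mem_filter.1 a0
      obtain ⟨a3, a4⟩ := mem_product.1 a1
      exact mem_filter.2 ⟨mem_filter.2 ⟨mem_product.2 ⟨a4, a3⟩, by rwa [add_comm] at a2⟩,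
        fun e => a5 e.symm⟩
  have h4 := card_filter_add_card_filter_not (s := Q) fun p => p.1 = p.2
  have h5 := card_filter_add_card_filter_not (s := S) fun s => u - s ∈ Mis S
  obtain ⟨j, hj⟩ := h3
  exact ⟨(U S u).card + j + (S.filter fun s => u - s ∈ Mis S).card, by omega⟩

theorem sum_U : ∑ u, (U S u).card = S.card * S.card := by
  simp only [U, card_filter]
  rw [sum_comm, ← smul_eq_mul, ← sum_const]
  refine sum_congr rfl fun s _ => ?_
  rw [← Equiv.sum_comp (Equiv.subLeft (s + s))]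
  simp

theorem sum_U' : ∑ u, ((U S u).card - 1) + Fintype.card G =
    S.card * S.card + (univ.filter fun u => (U S u).card = 0).card := by
  rw [← sum_U, card_filter, ← card_univ, card_eq_sum_ones univ, ← sum_add_distrib,
    ← sum_add_distrib]
  refine sum_congr rfl fun u _ => ?_
  split_ifs <;> omega

theorem empty_le (h : IsSidon S) (hk : Odd S.card) :
    (univ.filter fun u => (U S u).card = 0).card ≤ S.card * (Mis S).card := by
  rw [← card_product]
  refine le_trans (card_le_card fun u hu => ?_) (card_image_le (f := fun p => p.1 + p.2))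
  have h0 := (mem_filter.1 hu).2
  have h1 : u ∉ S := fun h1 => by
    have : u ∈ U S u := mem_filter.2 ⟨h1, by simpa using h1⟩
    rw [card_eq_zero.1 h0] at this
    simp at this
  have h2 := parity h h1
  obtain ⟨s, hs⟩ : (S.filter fun s => u - s ∈ Mis S).Nonempty := by
    rw [← card_pos]
    rw [Nat.even_iff] at h2
    rw [Nat.odd_iff] at hk
    omega
  exact mem_image.2 ⟨(s, u - s), mem_product.2 (mem_filter.1 hs), by simp⟩

variable (h2 : ∀ x y : G, x + x = y + y → x = y)
include h2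

omit [Fintype G] in
theorem inter_le (h : IsSidon S) {u w : G} (n : u ≠ w) : (U S u ∩ U S w).card ≤ 1 := by
  refine card_le_one.2 fun s hs t ht => ?_
  simp only [U, mem_inter, mem_filter] at hs ht
  rcases h.or hs.1.2 ht.2.2 hs.2.2 ht.1.2 (by abel) with e | e
  · exact absurd (sub_right_inj.1 e.1) n
  · exact h2 _ _ (sub_left_inj.1 e.1)

theorem bad_le (h : IsSidon S) :
    (S.offDiag.filter fun p => p.1 + p.1 - (p.2 + p.2) ∈ Mis S).card ≤ (Mis S).card := by
  refine card_le_card_of_injOn (fun p => p.1 + p.1 - (p.2 + p.2))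
    (fun p hp => (mem_filter.1 (mem_coe.1 hp)).2) fun p hp q hq e => ?_
  obtain ⟨a1, a2, a3⟩ := mem_offDiag.1 (mem_filter.1 (mem_coe.1 hp)).1
  obtain ⟨b1, b2, -⟩ := mem_offDiag.1 (mem_filter.1 (mem_coe.1 hq)).1
  have e' : p.1 + p.1 - (p.2 + p.2) = q.1 + q.1 - (q.2 + q.2) := e
  have := h.sub a1 a2 b1 b2 (h2 _ _ (by linear_combination (norm := abel1) e')) a3
  exact Prod.ext this.1 this.2

theorem good {a b : G} (ha : a ∈ S) (hb : b ∈ S) (n : a ≠ b) (m : a + a - (b + b) ∉ Mis S) :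
    ∃ u, a ∈ U S u ∧ b ∈ U S u := by
  obtain ⟨x, hx, y, hy, -, e⟩ := not_mis m fun e => n (h2 _ _ (sub_eq_zero.1 e))
  refine ⟨a + a - x, mem_filter.2 ⟨ha, by simpa using hx⟩, mem_filter.2 ⟨hb, ?_⟩⟩
  rwa [show b + b - (a + a - x) = y by linear_combination (norm := abel1) e]

theorem pairs (h : IsSidon S) :
    S.card * (S.card - 1) ≤ (Mis S).card + ∑ u, (U S u).card * ((U S u).card - 1) := by
  have h1 : S.offDiag ⊆ (S.offDiag.filter fun p => p.1 + p.1 - (p.2 + p.2) ∈ Mis S) ∪
      univ.biUnion fun u => (U S u).offDiag := by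
    intro p hp
    by_cases m : p.1 + p.1 - (p.2 + p.2) ∈ Mis S
    · exact mem_union_left _ (mem_filter.2 ⟨hp, m⟩)
    · obtain ⟨a1, a2, a3⟩ := mem_offDiag.1 hp
      obtain ⟨u, b1, b2⟩ := good h2 a1 a2 a3 m
      exact mem_union_right _ (mem_biUnion.2 ⟨u, mem_univ _, mem_offDiag.2 ⟨b1, b2, a3⟩⟩)
  have h3 := (card_le_card h1).trans ((card_union_le _ _).trans
    (add_le_add (bad_le h2 h) card_biUnion_le))
  simpa only [offDiag_card, Nat.mul_sub_one] using h3

theorem cross (h : IsSidon S) (w : G) :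
    (U S w).card * (S \ U S w).card + ((U S w).card - 1) ≤
      (Mis S).card + ∑ u, ((U S u).card - 1) := by
  have h1 : U S w ×ˢ (S \ U S w) ⊆ (S.offDiag.filter fun p => p.1 + p.1 - (p.2 + p.2) ∈ Mis S) ∪
      (univ.erase w).biUnion fun u => (U S u ∩ U S w) ×ˢ (U S u \ U S w) := by
    intro p hp
    obtain ⟨a1, a2⟩ := mem_product.1 hp
    obtain ⟨a2, a4⟩ := mem_sdiff.1 a2
    have a3 : p.1 ≠ p.2 := fun e => a4 (e ▸ a1)
    have a0 := (mem_filter.1 a1).1
    by_cases m : p.1 + p.1 - (p.2 + p.2) ∈ Mis S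
    · exact mem_union_left _ (mem_filter.2 ⟨mem_offDiag.2 ⟨a0, a2, a3⟩, m⟩)
    · obtain ⟨u, b1, b2⟩ := good h2 a0 a2 a3 m
      exact mem_union_right _ (mem_biUnion.2 ⟨u, mem_erase.2 ⟨fun e => a4 (e ▸ b2), mem_univ _⟩,
        mem_product.2 ⟨mem_inter.2 ⟨b1, a1⟩, mem_sdiff.2 ⟨b2, a4⟩⟩⟩)
  have h3 := (card_le_card h1).trans ((card_union_le _ _).trans
    (add_le_add (bad_le h2 h) card_biUnion_le))
  have h4 : ∑ u ∈ univ.erase w, ((U S u ∩ U S w) ×ˢ (U S u \ U S w)).card ≤
      ∑ u ∈ univ.erase w, ((U S u).card - 1) := by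
    refine sum_le_sum fun u hu => ?_
    have a1 := inter_le h2 h (mem_erase.1 hu).1
    have a2 := card_sdiff_add_card_inter (U S u) (U S w)
    rw [card_product]
    rcases Nat.le_one_iff_eq_zero_or_eq_one.1 a1 with e | e <;> rw [e] <;> omega
  rw [card_product] at h3
  rw [← add_sum_erase _ _ (mem_univ w)]
  omega

theorem off (h : IsSidon S) (w : G) (hw : (S \ U S w).Nonempty) :
    S.card ≤ (Mis S).card + 4 * (S \ U S w).card := by
  obtain ⟨z, hz⟩ := hw
  obtain ⟨z1, z2⟩ := mem_sdiff.1 hz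
  have z3 : z + z - w ∉ S := fun e => z2 (mem_filter.2 ⟨z1, e⟩)
  obtain ⟨x, hx⟩ : ∃ x, x = z + z - w := ⟨_, rfl⟩
  let S0 := (U S w).image fun s => s + s - w
  have c1 : S0.card = (U S w).card :=
    card_image_of_injOn fun a _ b _ e => h2 _ _ (sub_left_inj.1 e)
  have c2 : S0 ⊆ S := fun s hs => by
    obtain ⟨t, ht, rfl⟩ := mem_image.1 hs
    exact (mem_filter.1 ht).2
  have c3 := card_sdiff_add_card_eq_card c2
  have c4 := card_sdiff_add_card_eq_card (filter_subset (fun s => s + s - w ∈ S) S)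
  have h1 : S0 ⊆ (S.filter fun s => x - s ∈ Mis S) ∪
      (((S \ S0).biUnion fun y => S.filter fun s => s + y - x ∈ S) ∪
        (S \ S0).biUnion fun y => S.filter fun s => x + y - s ∈ S) := by
    intro s hs
    have s1 := c2 hs
    by_cases m : x - s ∈ Mis S
    · exact mem_union_left _ (mem_filter.2 ⟨s1, m⟩)
    refine mem_union_right _ ?_
    obtain ⟨a, ha, b, hb, -, e⟩ := not_mis m fun e => z3 (hx ▸ sub_eq_zero.1 e ▸ s1)
    by_cases m1 : a ∈ S0
    · by_cases m2 : b ∈ S0
      · exfalso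
        obtain ⟨a', a1, rfl⟩ := mem_image.1 m1
        obtain ⟨b', b1, rfl⟩ := mem_image.1 m2
        obtain ⟨s', s2, rfl⟩ := mem_image.1 hs
        rcases h.or z1 (mem_filter.1 b1).1 (mem_filter.1 a1).1 (mem_filter.1 s2).1
          (h2 _ _ (by rw [hx] at e; linear_combination (norm := abel1) -e)) with e' | e'
        · exact z2 (e'.1 ▸ a1)
        · exact z2 (e'.1 ▸ s2)
      · refine mem_union_right _ (mem_biUnion.2 ⟨b, mem_sdiff.2 ⟨hb, m2⟩, mem_filter.2 ⟨s1, ?_⟩⟩)
        rwa [show x + b - s = a by linear_combination (norm := abel1) -e]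
    · refine mem_union_left _ (mem_biUnion.2 ⟨a, mem_sdiff.2 ⟨ha, m1⟩, mem_filter.2 ⟨s1, ?_⟩⟩)
      rwa [show s + a - x = b by linear_combination (norm := abel1) e]
  have d1 : (S.filter fun s => x - s ∈ Mis S).card ≤ (Mis S).card :=
    card_le_card_of_injOn (fun s => x - s) (fun s hs => (mem_filter.1 (mem_coe.1 hs)).2)
      fun a _ b _ e => sub_right_inj.1 e
  have d2 : ((S \ S0).biUnion fun y => S.filter fun s => s + y - x ∈ S).card ≤
      (S \ S0).card * 1 := by
    refine card_biUnion_le_card_mul _ _ _ fun y hy => card_le_one.2 fun s hs t ht => ?_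
    obtain ⟨a1, a2⟩ := mem_filter.1 hs
    obtain ⟨b1, b2⟩ := mem_filter.1 ht
    refine (h.sub a1 a2 b1 b2 (by abel) fun e => z3 ?_).1
    rw [← hx, show x = y by linear_combination (norm := abel1) e]
    exact (mem_sdiff.1 hy).1
  have d3 : ((S \ S0).biUnion fun y => S.filter fun s => x + y - s ∈ S).card ≤
      (S \ S0).card * 2 := by
    refine card_biUnion_le_card_mul _ _ _ fun y _ => ?_
    rcases (S.filter fun s => x + y - s ∈ S).eq_empty_or_nonempty with e | ⟨s, hs⟩
    · simp [e]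
    · obtain ⟨a1, a2⟩ := mem_filter.1 hs
      refine le_trans (card_le_card (t := {s, x + y - s}) fun t ht => ?_) card_le_two
      obtain ⟨b1, b2⟩ := mem_filter.1 ht
      rcases h.or b1 b2 a1 a2 (by abel) with e | e <;> simp [e.1]
  have h3 := (card_le_card h1).trans ((card_union_le _ _).trans
    (add_le_add d1 ((card_union_le _ _).trans (add_le_add d2 d3))))
  simp only [U] at c1 ⊢
  omega

theorem full (h : IsSidon S) (hk : Odd S.card) (w : G) (hw : U S w = S) {m : G} (hm : m ∈ Mis S) :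
    S.card ≤ 2 * (Mis S).card := by
  have a1 : ∀ u, u ≠ w → (U S u).card ≤ 1 := fun u hu => by
    have := inter_le h2 h hu
    rwa [hw, inter_eq_left.2 (show U S u ⊆ S from filter_subset _ _)] at this
  have a2 : ∑ u, ((U S u).card - 1) = S.card - 1 := by
    rw [sum_eq_single w (fun u _ hu => by have := a1 u hu; omega) (by simp), hw]
  have a3 := sum_U' (S := S)
  have a4 := card_mis h
  have a5 : (univ.filter fun u => (U S u).card = 0).card = (Mis S).card := by
    rw [Nat.mul_sub_one] at a4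
    have := hk.pos
    have := Nat.le_mul_self S.card
    omega
  have h1 : S ⊆ (S.filter fun s => (U S (s + m)).card = 0) ∪
      (Mis S).biUnion fun m' => S.filter fun s => m' ≠ m ∧ s + m - m' ∈ S := by
    intro s hs
    by_cases e : ∃ m' ∈ Mis S, m' ≠ m ∧ s + m - m' ∈ S
    · obtain ⟨m', b1, b2⟩ := e
      exact mem_union_right _ (mem_biUnion.2 ⟨m', b1, mem_filter.2 ⟨hs, b2⟩⟩)
    refine mem_union_left _ (mem_filter.2 ⟨hs, ?_⟩)
    have b1 : s + m ∉ S := fun b => sub_not_mis b hs (by simpa using hm)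
    have b2 : (S.filter fun t => s + m - t ∈ Mis S) = {s} := by
      ext t
      simp only [mem_filter, mem_singleton]
      refine ⟨fun b => ?_, fun b => by simp [b, hs, hm]⟩
      by_contra n
      exact e ⟨_, b.2, fun e' => n (by linear_combination (norm := abel1) -e'), by simpa using b.1⟩
    have b3 := parity h b1
    rw [b2, card_singleton, Nat.even_iff] at b3
    rw [Nat.odd_iff] at hk
    by_cases b4 : s + m = w
    · rw [b4, hw] at b3; omega
    · have := a1 _ b4; omega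
  have d1 : (S.filter fun s => (U S (s + m)).card = 0).card ≤ (Mis S).card := by
    rw [← a5]
    exact card_le_card_of_injOn (fun s => s + m)
      (fun s hs => mem_coe.2 (mem_filter.2 ⟨mem_univ _, (mem_filter.1 (mem_coe.1 hs)).2⟩))
      fun a _ b _ e => add_right_cancel e
  have d2 : ((Mis S).biUnion fun m' => S.filter fun s => m' ≠ m ∧ s + m - m' ∈ S).card ≤
      (Mis S).card * 1 := by
    refine card_biUnion_le_card_mul _ _ _ fun y _ => card_le_one.2 fun s hs t ht => ?_
    obtain ⟨b1, b2, b3⟩ := mem_filter.1 hs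
    obtain ⟨c1, -, c3⟩ := mem_filter.1 ht
    exact (h.sub b1 b3 c1 c3 (by abel) fun e => b2 (by linear_combination (norm := abel1) e)).1
  have h3 := (card_le_card h1).trans ((card_union_le _ _).trans (add_le_add d1 d2))
  omega

end

theorem result (G : Type) [AddCommGroup G] [Finite G] (hG : Odd (Nat.card G)) (S : Finset G)
    (hS : IsSidon S) (k d : ℕ) (hk : S.card = k) (hodd : Odd k)
    (hd : Nat.card G = k * (k - 1) + 1 + d) : d = 0 ∨ k ≤ (d + 1) * (d + 2) := by
  classical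
  have := Fintype.ofFinite G
  have h2 : ∀ x y : G, x + x = y + y → x = y := by
    intro x y e
    have h3 := (Nat.Coprime.nsmul_right_bijective (G := G) (n := 2)
      (Nat.coprime_two_right.2 hG)).1
    exact h3 (by simpa [two_nsmul] using e)
  subst hk
  rw [Nat.card_eq_fintype_card] at hd
  have a4 := card_mis hS
  have hM : (Mis S).card = d := by omega
  by_contra hc
  obtain ⟨d0, hc⟩ := not_or.1 hc
  obtain ⟨w, -, hw⟩ := exists_max_image univ (fun u => (U S u).card) ⟨0, mem_univ _⟩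
  obtain ⟨j, hj⟩ : ∃ j, S.card = j + 1 := ⟨S.card - 1, by have := hodd.pos; omega⟩
  have a1 := sum_U' (S := S)
  have a2 := empty_le hS hodd
  have a3 := pairs h2 hS
  have a5 := cross h2 hS w
  have a6 : ∑ u, (U S u).card * ((U S u).card - 1) ≤ (U S w).card * ∑ u, ((U S u).card - 1) := by
    rw [mul_sum]
    exact sum_le_sum fun u hu => Nat.mul_le_mul_right _ (hw u hu)
  have c4 := card_sdiff_add_card_eq_card (show U S w ⊆ S from filter_subset _ _)
  have b1 := off h2 hS w
  have b2 := fun e m => full h2 hS hodd w e (m := m)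
  rw [hM] at a2 a3 a5 b1 b2
  rw [hj, Nat.add_sub_cancel] at hd a3
  rw [hj] at a1 a2 hc c4 b1 b2
  obtain ⟨X, hX⟩ : ∃ X, X = ∑ u, ((U S u).card - 1) := ⟨_, rfl⟩
  obtain ⟨c, hc0⟩ : ∃ c, c = (U S w).card := ⟨_, rfl⟩
  obtain ⟨r, hr⟩ : ∃ r, r = (S \ U S w).card := ⟨_, rfl⟩
  rw [← hX] at a1 a5 a6
  rw [← hc0] at a5 a6 c4
  rw [← hr] at a5 c4 b1
  have e1 : X ≤ (d + 1) * j := by nlinarith
  have e2 : d + 2 ≤ c := by
    by_contra e
    have : c * X ≤ (d + 1) * ((d + 1) * j) := Nat.mul_le_mul (by omega) e1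
    nlinarith
  have e3 : r ≤ d := by
    by_contra e
    obtain ⟨c', rfl⟩ : ∃ c', c = d + 2 + c' := ⟨c - (d + 2), by omega⟩
    obtain ⟨r', rfl⟩ : ∃ r', r = d + 1 + r' := ⟨r - (d + 1), by omega⟩
    rw [show d + 2 + c' - 1 = d + 1 + c' by omega] at a5
    obtain rfl : j = 2 * d + 2 + c' + r' := by omega
    nlinarith [Nat.zero_le (c' * r')]
  rcases (S \ U S w).eq_empty_or_nonempty with e | e
  · obtain ⟨m, hm⟩ := card_pos.1 (show 0 < (Mis S).card by omega)
    have := b2 (Subset.antisymm (filter_subset _ _) (sdiff_eq_empty_iff_subset.1 e)) m hm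
    nlinarith
  · have := b1 e
    nlinarith

end Pool.Agent.Results.MP_982bd8_co.NearPerfect
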