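import Pool.Agent.Lib.MP_982bd8_co.Seq
import Pool.Agent.Lib.MP_982bd8_co.Act2

/-! Sidon sets in `Z/pZ` whose development is realisable over a field. -/

namespace Pool.Agent.Results.MP_982bd8_co.RealisableHalf

open Polynomial Matrix Pool.Agent.LinSidon
open scoped LinearAlgebra.Projectivization

theorem cyc {K : Type*} [Field K] [IsAlgClosed K] {p : ℕ} (hp : p.Prime) (hp' : 4096 < p)
    {g : Matrix (Fin 3) (Fin 3) K} {c : K} {v w : Fin 3 → K} (hc : c ≠ 0)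
    (hg : g ^ p *ᵥ v = c • v) (h : ∃ i, w ⬝ᵥ (g ^ i *ᵥ v) ≠ 0) {S : Finset ℕ} (lt : ∀ i ∈ S, i < p)
    (eq : ∀ i ∈ S, w ⬝ᵥ (g ^ i *ᵥ v) = 0) {ρ : ℝ} (h0 : 1 ≤ ρ) (hρ : ρ ^ 3 = p) :
    (S.card : ℝ) ≤ √(p / 2) + 16 * ρ ∨ ∃ q, Fr K q ∧ p = q ^ 2 + q + 1 := by
  classical
  let L : K[X] →ₗ[K] K :=
    { toFun := fun f => w ⬝ᵥ (aeval g f *ᵥ v)
      map_add' := fun f f' => by rw [map_add, add_mulVec, dotProduct_add]
      map_smul' := fun a f => by rw [map_smul, smul_mulVec, dotProduct_smul, RingHom.id_apply] }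
  have hL : ∀ i : ℕ, L (X ^ i) = w ⬝ᵥ (g ^ i *ᵥ v) := fun i => by simp [L]
  refine fun_bound hp hp' hc L (μ := EuclideanDomain.gcd (X ^ p - C c) g.charpoly)
    (EuclideanDomain.gcd_dvd_left _ _)
    ((natDegree_le_of_dvd (EuclideanDomain.gcd_dvd_right _ _) g.charpoly_monic.ne_zero).trans
      (by rw [charpoly_natDegree_eq_dim, Fintype.card_fin])) ?_ (by simpa only [hL] using h) lt
    (by simpa only [hL] using eq) h0 hρ
  rintro _ ⟨f, rfl⟩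
  have e : ∀ f : K[X], L (f * (X ^ p - C c)) = 0 := fun f => by
    simp [L, ← mulVec_mulVec, sub_mulVec, hg, Algebra.algebraMap_eq_smul_one, smul_mulVec]
  have e' : ∀ f : K[X], L (g.charpoly * f) = 0 := fun f => by simp [L, aeval_self_charpoly]
  rw [EuclideanDomain.gcd_eq_gcd_ab, add_mul, map_add, mul_assoc, mul_assoc, e', mul_comm, e,
    add_zero]

theorem num {N k ε σ a s : ℝ} (h1 : 0 ≤ N) (h2 : 0 ≤ k) (h3 : 0 < ε) (h4 : 16 ≤ N * ε)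
    (h5 : N + 2 * k + 5 ≤ σ) (h6 : a ^ 2 = 1 / 2) (h7 : 0 ≤ a) (h8 : (a + ε) * σ ^ 3 < s) :
    k + 2 ≤ s ∧ (N + 6) * σ ^ 6 + 8 * s ^ 2 ≤ 2 * (N + 6) * s ^ 2 ∧
      a * σ ^ 3 + 16 * σ ^ 2 < s ∧ 1 ≤ σ ^ 2 := by
  have a1 : 1 / 2 ≤ a := by nlinarith
  have s1 : 1 ≤ σ ^ 2 := by nlinarith
  have s2 : σ ≤ σ ^ 3 := by nlinarith
  have s3 : 16 * σ ^ 2 ≤ ε * σ ^ 3 := by
    have : 16 ≤ ε * σ := by nlinarith
    nlinarith
  have s4 : (1 / 2 + ε) * σ ^ 6 ≤ s ^ 2 :=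
    calc (1 / 2 + ε) * σ ^ 6 ≤ (a + ε) ^ 2 * σ ^ 6 :=
          mul_le_mul_of_nonneg_right (by nlinarith) (by positivity)
      _ = ((a + ε) * σ ^ 3) ^ 2 := by ring
      _ ≤ s ^ 2 := pow_le_pow_left₀ (mul_nonneg (by linarith) (by linarith)) h8.le 2
  have s5 := mul_le_mul_of_nonneg_left s4 (show 0 ≤ 2 * N + 4 by linarith)
  have s6 := mul_le_mul_of_nonneg_right (show N + 6 ≤ (2 * N + 4) * (1 / 2 + ε) by nlinarith)
    (show 0 ≤ σ ^ 6 by positivity)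
  exact ⟨by nlinarith, by nlinarith, by linarith, s1⟩

theorem result (ε : ℝ) (hε : 0 < ε) : ∃ p₀ : ℕ, ∀ p : ℕ, p.Prime → p₀ ≤ p →
    ∀ (S : Finset (ZMod p)) (K : Type*) [Field K] (P L : ZMod p → ℙ K (Fin 3 → K)),
    Function.Injective P → Function.Injective L → (∀ s ∈ S, ∀ t, (L t).orthogonal (P (s + t))) →
    (S.card : ℝ) ≤ (1 / √2 + ε) * √p ∨
      ∃ j : ℕ, 0 < j ∧ (ringChar K).Prime ∧ p = (ringChar K ^ j) ^ 2 + ringChar K ^ j + 1 := by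
  classical
  obtain ⟨N, hN⟩ := exists_nat_ge (16 / ε)
  rw [div_le_iff₀ hε] at hN
  obtain ⟨k₀, hk⟩ := act2 (show 6 ≤ N + 6 by omega)
  refine ⟨(N + 2 * k₀ + 5) ^ 6, fun p hp hp' S K _ P L hP hL inc =>
    (le_or_gt _ _).imp id fun H => ?_⟩
  have := Fact.mk hp
  have E : Emb S (fun x => (P x).rep) fun x => (L x).rep :=
    ⟨fun x y h => LinearIndependent.pair_iff.1
        (Projectivization.linearIndependent_pair_iff_ne.2 (hP.ne h)),
      fun x y h => LinearIndependent.pair_iff.1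
        (Projectivization.linearIndependent_pair_iff_ne.2 (hL.ne h)), fun t x h => by
      have := inc _ h t
      rwa [sub_add_cancel, ← (L t).mk_rep, ← (P x).mk_rep, Projectivization.orthogonal_mk] at this⟩
  obtain ⟨σ, σ0, hσ⟩ : ∃ σ : ℝ, 0 ≤ σ ∧ σ ^ 6 = p :=
    ⟨(p : ℝ) ^ ((6 : ℕ) : ℝ)⁻¹, by positivity, Real.rpow_inv_natCast_pow (by positivity) (by omega)⟩
  have σ1 : (N : ℝ) + 2 * k₀ + 5 ≤ σ := le_of_pow_le_pow_left₀ (n := 6) (by omega) σ0 (by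
    rw [hσ]
    exact_mod_cast hp')
  have r1 : √(p : ℝ) = σ ^ 3 := by
    rw [← hσ, show σ ^ 6 = (σ ^ 3) ^ 2 by ring, Real.sqrt_sq (by positivity)]
  have r2 : √((p : ℝ) / 2) = 1 / √2 * σ ^ 3 := by
    rw [Real.sqrt_div' _ (by norm_num), r1]
    ring
  rw [r1] at H
  obtain ⟨n1, n2, n3, n4⟩ := num (Nat.cast_nonneg N) (Nat.cast_nonneg k₀) hε hN σ1
    (by rw [div_pow, Real.sq_sqrt (by norm_num), one_pow]) (by positivity) H
  have k1 : k₀ + 2 ≤ S.card := by exact_mod_cast n1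
  obtain ⟨u, hu, v, hv, huv⟩ := Finset.one_lt_card.1 (show 1 < S.card by omega)
  obtain ⟨g, h, h0, hg⟩ := hk K _ S _ _ E (by omega) (by
    rw [ZMod.card]
    rw [hσ] at n2
    exact_mod_cast n2)
  have pw : ∀ i : ℕ, ∃ c : K, c ≠ 0 ∧ g ^ i *ᵥ (P 0).rep = c • (P (i * h)).rep := fun i => by
    induction i with
    | zero => exact ⟨1, one_ne_zero, by simp⟩
    | succ i ih =>
      obtain ⟨c, c0, hc⟩ := ih
      obtain ⟨d, d0, hd⟩ := hg (i * h)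
      refine ⟨c * d, mul_ne_zero c0 d0, ?_⟩
      rw [pow_succ', ← mulVec_mulVec, hc, mulVec_smul, hd, smul_smul, Nat.cast_succ, add_mul,
        one_mul]
  have ev : ∀ y : ZMod p, (L 0).rep ⬝ᵥ (g ^ (y / h).val *ᵥ (P 0).rep) = 0 ↔
      (L 0).rep ⬝ᵥ (P y).rep = 0 := fun y => by
    obtain ⟨c, c0, hc⟩ := pw (y / h).val
    rw [hc, dotProduct_smul, smul_eq_zero, or_iff_right c0, ZMod.natCast_zmod_val,
      div_mul_cancel₀ _ h0]
  obtain ⟨c, c0, hc⟩ := pw p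
  rw [ZMod.natCast_self, zero_mul] at hc
  let φ := algebraMap K (AlgebraicClosure K)
  have e : ∀ i : ℕ, (φ ∘ (L 0).rep) ⬝ᵥ (φ.mapMatrix g ^ i *ᵥ (φ ∘ (P 0).rep)) = 0 ↔
      (L 0).rep ⬝ᵥ (g ^ i *ᵥ (P 0).rep) = 0 := fun i => by
    rw [← map_pow, ← map_eq_zero_iff φ φ.injective]
    simp [dotProduct, mulVec]
  rcases cyc hp (lt_of_lt_of_le (by norm_num) ((Nat.pow_le_pow_left (Nat.le_add_left 5 _) 6).trans
    hp')) (g := φ.mapMatrix g) (c := φ c) (v := φ ∘ (P 0).rep)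
    (w := φ ∘ (L 0).rep) ((map_ne_zero φ).2 c0) (by
      ext i
      rw [← map_pow]
      simpa [dotProduct, mulVec] using congrArg φ (congrFun hc i))
    (by
      obtain ⟨z, hz⟩ := E.off hu hv huv
      exact ⟨(z / h).val, mt (fun h' => (ev z).1 ((e _).1 h')) hz⟩)
    (S := S.image fun y => (y / h).val) (fun i hi => by
      obtain ⟨y, -, rfl⟩ := Finset.mem_image.1 hi
      exact ZMod.val_lt _) (fun i hi => by
      obtain ⟨y, hy, rfl⟩ := Finset.mem_image.1 hi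
      exact (e _).2 ((ev y).2 (E.inc 0 y (by simpa)))) (ρ := σ ^ 2) n4
    (by rw [← hσ]; ring) with h1 | ⟨q, ⟨j, h1, h2, rfl⟩, h3⟩
  · rw [Finset.card_image_of_injective _ fun y y' e =>
      (div_left_inj' h0).1 (ZMod.val_injective p e), r2] at h1
    exact absurd n3 h1.not_gt
  · rw [← Algebra.ringChar_eq K] at h2 h3
    exact ⟨j, h1, h2, h3⟩

end Pool.Agent.Results.MP_982bd8_co.RealisableHalf
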